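import Mathlib
import Pool.Agent.H8.Asm

set_option autoImplicit false

/-!
Fixed points of a group of automorphisms of a free pro-p group of finite rank which is isomorphic
to the p-adic integers, in the words of the problem: the group of continuous automorphisms with
its profinite topology, and a subgroup of it isomorphic to the p-adic integers.
-/

namespace Pool.Agent.Results.MP_72c4d0_al.FixedSubgroup

/-- Pro-p groups: compact Hausdorff totally disconnected topological groups whose open normal
subgroups have index a power of `p`. -/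
structure IsProP (p : ℕ) (F : Type) [Group F] [TopologicalSpace F] : Prop where
  topGroup : IsTopologicalGroup F
  compact : CompactSpace F
  hausdorff : T2Space F
  totallyDisconnected : TotallyDisconnectedSpace F
  index : ∀ N : Subgroup F, N.Normal → IsOpen (N : Set F) → ∃ k : ℕ, N.index = p ^ k

/-- `F` is the free pro-p group on the family `ι` of `n` elements. -/
structure IsFreeProP (p : ℕ) {n : ℕ} (F : Type) [Group F] [TopologicalSpace F]
    (ι : Fin n → F) : Prop where
  proP : IsProP p F
  free : ∀ (P : Type) [Group P] [TopologicalSpace P], IsProP p P → ∀ f : Fin n → P,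
    ∃! g : F →* P, Continuous g ∧ ∀ i, g (ι i) = f i

/-- The group of continuous automorphisms (with continuous inverse). -/
def AutF (F : Type) [Group F] [TopologicalSpace F] : Subgroup (MulAut F) where
  carrier := {δ | Continuous (δ : F → F) ∧ Continuous ((δ⁻¹ : MulAut F) : F → F)}
  one_mem' := ⟨continuous_id, by rw [inv_one]; exact continuous_id⟩
  mul_mem' := by
    rintro a b ⟨ha, ha'⟩ ⟨hb, hb'⟩
    refine ⟨ha.comp hb, ?_⟩
    rw [mul_inv_rev]
    exact hb'.comp ha'
  inv_mem' := by
    rintro a ⟨ha, ha'⟩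
    exact ⟨ha', by rw [inv_inv]; exact ha⟩

/-- Open characteristic subgroups. -/
def IsOpenChar {F : Type} [Group F] [TopologicalSpace F] (U : Subgroup F) : Prop :=
  IsOpen (U : Set F) ∧ ∀ δ ∈ AutF F, ∀ x ∈ U, δ x ∈ U

/-- The profinite topology of `Aut(F)`: the cosets of the kernels of `Aut(F) → Aut(F/U)`, where
`U` runs over the open characteristic subgroups, are a base. -/
def autTopology (F : Type) [Group F] [TopologicalSpace F] : TopologicalSpace (AutF F) :=
  TopologicalSpace.generateFrom
    {W | ∃ (U : Subgroup F) (δ : AutF F), IsOpenChar U ∧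
      W = {ε : AutF F | ∀ x : F, (δ.1 x)⁻¹ * ε.1 x ∈ U}}

/-- The subgroup of the elements fixed by `Δ`. -/
def fixedSubgroup {F : Type} [Group F] [TopologicalSpace F] (Δ : Subgroup (AutF F)) :
    Subgroup F where
  carrier := {x | ∀ δ ∈ Δ, δ.1 x = x}
  one_mem' := fun δ _ => map_one δ.1
  mul_mem' := fun {a b} ha hb δ hδ => by rw [map_mul, ha δ hδ, hb δ hδ]
  inv_mem' := fun {a} ha δ hδ => by rw [map_inv, ha δ hδ]

/-- `θ` is an isomorphism of topological groups from the p-adic integers to `Δ`, which has the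
topology induced from the profinite topology of `Aut(F)`. -/
def IsProfiniteIso {p : ℕ} [Fact (Nat.Prime p)] {F : Type} [Group F] [TopologicalSpace F]
    {Δ : Subgroup (AutF F)} (θ : Multiplicative ℤ_[p] ≃* Δ) : Prop :=
  letI : TopologicalSpace (AutF F) := autTopology F
  Continuous θ ∧ Continuous θ.symm

/-- There are arbitrarily small open characteristic subgroups. -/
theorem exists_char {p : ℕ} (hp : Nat.Prime p) {n : ℕ} {F : Type} [Group F] [TopologicalSpace F]
    {ι : Fin n → F} (hF : IsFreeProP p F ι) (V : Subgroup F) (hV : IsOpen (V : Set F))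
    (hVn : V.Normal) : ∃ U : Subgroup F, IsOpenChar U ∧ U ≤ V := by
  have := hF.proP.topGroup
  have := hF.proP.compact
  have hfin : Finite (F ⧸ V) := Subgroup.quotient_finite_of_isOpen V hV
  let P : Type := F ⧸ V
  letI : TopologicalSpace P := ⊥
  have hd : DiscreteTopology P := ⟨rfl⟩
  have hPp : IsProP p P := by
    refine ⟨inferInstance, inferInstance, inferInstance, inferInstance, ?_⟩
    intro N _ _
    obtain ⟨k, hk⟩ := hF.proP.index V hVn hV
    have h1 : N.index ∣ Nat.card P := Subgroup.index_dvd_card N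
    have h2 : Nat.card P = p ^ k := hk
    rw [h2] at h1
    obtain ⟨j, -, hj⟩ := (Nat.dvd_prime_pow hp).1 h1
    exact ⟨j, hj⟩
  have hHom : Finite {g : F →* P // Continuous g} := by
    refine Finite.of_injective (fun g : {g : F →* P // Continuous g} => fun i => g.1 (ι i)) ?_
    intro g g' hgg
    have h1 := hF.free P hPp (fun i => g.1 (ι i))
    exact Subtype.ext (h1.unique ⟨g.2, fun _ => rfl⟩ ⟨g'.2, fun i => (congrFun hgg i).symm⟩)
  have hker : ∀ g : {g : F →* P // Continuous g}, IsOpen (g.1.ker : Set F) := by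
    intro g
    have h1 : (g.1.ker : Set F) = g.1 ⁻¹' {1} := rfl
    rw [h1]
    exact (isOpen_discrete _).preimage g.2
  refine ⟨⨅ g : {g : F →* P // Continuous g}, g.1.ker, ⟨?_, ?_⟩, ?_⟩
  · rw [Subgroup.coe_iInf]
    exact isOpen_iInter_of_finite hker
  · intro δ hδ x hx
    rw [Subgroup.mem_iInf] at hx ⊢
    intro g
    have h1 := hx ⟨g.1.comp δ.toMonoidHom, g.2.comp hδ.1⟩
    exact h1
  · intro x hx
    rw [Subgroup.mem_iInf] at hx
    have h1 : Continuous (QuotientGroup.mk' V : F → P) := by
      have h2 : ∀ y : P, IsOpen ((QuotientGroup.mk' V : F → P) ⁻¹' {y}) := by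
        intro y
        obtain ⟨a, rfl⟩ := QuotientGroup.mk'_surjective V y
        have h3 : ((QuotientGroup.mk' V : F → P) ⁻¹' {QuotientGroup.mk' V a}) =
            (fun x => a⁻¹ * x) ⁻¹' (V : Set F) := by
          ext b
          rw [Set.mem_preimage, Set.mem_preimage, Set.mem_singleton_iff]
          change ((b : F ⧸ V) = (a : F ⧸ V)) ↔ _
          rw [eq_comm, QuotientGroup.eq]
          rfl
        rw [h3]
        exact hV.preimage (continuous_mul_left a⁻¹)
      refine ⟨fun s _ => ?_⟩
      have h4 : ((QuotientGroup.mk' V : F → P) ⁻¹' s) =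
          ⋃ y ∈ s, (QuotientGroup.mk' V : F → P) ⁻¹' {y} := by
        ext b
        simp
      rw [h4]
      exact isOpen_biUnion fun y _ => h2 y
    have h2 := hx ⟨QuotientGroup.mk' V, h1⟩
    exact (QuotientGroup.eq_one_iff x).1 h2

/-- The fixed subgroup of a group of automorphisms of a free pro-p group of finite rank which is
isomorphic, as a profinite group, to the p-adic integers is finitely generated as a profinite
group: a finite subset of it generates a dense subgroup of it. -/
theorem result :
    ∀ (p : ℕ) [Fact (Nat.Prime p)] (n : ℕ) (F : Type) [Group F] [TopologicalSpace F]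
      (ι : Fin n → F), IsFreeProP p F ι →
      ∀ (Δ : Subgroup (AutF F)) (θ : Multiplicative ℤ_[p] ≃* Δ), IsProfiniteIso θ →
        ∃ S : Finset F, (S : Set F) ⊆ fixedSubgroup Δ ∧
          (fixedSubgroup Δ : Set F) ⊆ closure (Subgroup.closure (S : Set F) : Set F) := by
  intro p hp n F _ _ ι hF Δ θ hθ'
  letI : TopologicalSpace (AutF F) := autTopology F
  have hθ : Continuous θ := hθ'.1
  have i1 := hF.proP.topGroup
  have i2 := hF.proP.compact
  have i3 := hF.proP.hausdorff
  have i4 := hF.proP.totallyDisconnected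
  have hF' : Pool.H8.IsFreeProP p ι := by
    refine ⟨hF.proP.index, ?_⟩
    intro P _ _ hP f
    letI : TopologicalSpace P := ⊥
    have hd : DiscreteTopology P := ⟨rfl⟩
    have hPp : IsProP p P := by
      refine ⟨inferInstance, inferInstance, inferInstance, inferInstance, ?_⟩
      intro N _ _
      obtain ⟨k, hk⟩ := hP
      have h1 : N.index ∣ Nat.card P := Subgroup.index_dvd_card N
      rw [Nat.card_eq_fintype_card, hk] at h1
      obtain ⟨j, -, hj⟩ := (Nat.dvd_prime_pow hp.out).1 h1
      exact ⟨j, hj⟩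
    obtain ⟨g, ⟨hg1, hg2⟩, hg3⟩ := hF.free P hPp f
    refine ⟨g, ⟨fun y => (isOpen_discrete _).preimage hg1, hg2⟩, ?_⟩
    rintro g' ⟨hg1', hg2'⟩
    refine hg3 g' ⟨⟨fun s _ => ?_⟩, hg2'⟩
    have h4 : (g' : F → P) ⁻¹' s = ⋃ y ∈ s, (g' : F → P) ⁻¹' {y} := by
      ext b
      simp
    rw [h4]
    exact isOpen_biUnion fun y _ => hg1' y
  let φ : Multiplicative ℤ_[p] →* MulAut F :=
    ((AutF F).subtype.comp Δ.subtype).comp θ.toMonoidHom
  have hφ : ∀ a, φ a = (θ a).1.1 := fun _ => rfl
  have hcont : Continuous (fun q : ℤ_[p] × F => φ (Multiplicative.ofAdd q.1) q.2) := by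
    rw [continuous_iff_continuousAt]
    rintro ⟨q0, x0⟩
    rw [ContinuousAt, tendsto_nhds]
    intro O hO hmem
    -- a small open characteristic subgroup
    have hO' : IsOpen ((fun y => φ (Multiplicative.ofAdd q0) x0 * y) ⁻¹' O) :=
      hO.preimage (continuous_mul_left _)
    have h1O : (1 : F) ∈ (fun y => φ (Multiplicative.ofAdd q0) x0 * y) ⁻¹' O := by
      rw [Set.mem_preimage, mul_one]
      exact hmem
    obtain ⟨V, hV⟩ := ProfiniteGrp.exist_openNormalSubgroup_sub_open_nhds_of_one hO' h1O
    obtain ⟨U, hU, hUV⟩ := exists_char hp.out hF V.toSubgroup V.isOpen' inferInstance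
    have h1 : IsOpen {q : ℤ_[p] | ∀ x : F, (φ (Multiplicative.ofAdd q0) x)⁻¹ *
        φ (Multiplicative.ofAdd q) x ∈ U} := by
      have h2 : IsOpen {ε : AutF F | ∀ x : F, ((θ (Multiplicative.ofAdd q0)).1.1 x)⁻¹ *
          ε.1 x ∈ U} :=
        TopologicalSpace.isOpen_generateFrom_of_mem ⟨U, (θ (Multiplicative.ofAdd q0)).1, hU, rfl⟩
      have h3 : Continuous (fun q : ℤ_[p] => (θ (Multiplicative.ofAdd q)).1) :=
        continuous_subtype_val.comp (hθ.comp continuous_ofAdd)
      exact h2.preimage h3
    have h2 : IsOpen {x : F | x0⁻¹ * x ∈ U} := hU.1.preimage (continuous_mul_left _)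
    refine Filter.mem_of_superset ((h1.prod h2).mem_nhds ⟨?_, ?_⟩) ?_
    · intro x
      rw [inv_mul_cancel]
      exact U.one_mem
    · change x0⁻¹ * x0 ∈ U
      rw [inv_mul_cancel]
      exact U.one_mem
    · rintro ⟨q, x⟩ ⟨hq, hx⟩
      have h3 : (φ (Multiplicative.ofAdd q0) x0)⁻¹ * φ (Multiplicative.ofAdd q) x ∈ U := by
        have h4 : (φ (Multiplicative.ofAdd q0) x0)⁻¹ * φ (Multiplicative.ofAdd q) x =
            φ (Multiplicative.ofAdd q0) (x0⁻¹ * x) *
              ((φ (Multiplicative.ofAdd q0) x)⁻¹ * φ (Multiplicative.ofAdd q) x) := by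
          rw [map_mul, map_inv]
          group
        rw [h4]
        exact U.mul_mem (hU.2 _ (θ (Multiplicative.ofAdd q0)).1.2 _ hx) (hq x)
      have h5 := hV (hUV h3)
      rw [Set.mem_preimage] at h5
      rw [mul_inv_cancel_left] at h5
      exact h5
  obtain ⟨S, hS⟩ := Pool.H8.fg_fixed (p := p) (x := ι) hF' φ hcont
  have hfix : {x : F | ∀ a : Multiplicative ℤ_[p], φ a x = x} = (fixedSubgroup Δ : Set F) := by
    ext x
    constructor
    · intro hx δ hδ
      have h1 := hx (θ.symm ⟨δ, hδ⟩)
      rw [hφ, MulEquiv.apply_symm_apply] at h1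
      exact h1
    · intro hx a
      exact hx (θ a).1 (θ a).2
  rw [hfix] at hS
  refine ⟨S, ?_, ?_⟩
  · rw [← hS]
    exact Set.Subset.trans Subgroup.subset_closure subset_closure
  · rw [hS]

end Pool.Agent.Results.MP_72c4d0_al.FixedSubgroup
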